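import Pool.Agent.H14.NP.EllP

/-!
# Spaces with uniformly complemented `ℓ_p^n`'s have property (NP)
-/

universe u

namespace Pool.Agent.Results.MP_2a75aa_an.ComplementedLp

open Pool.Agent.H14.NP
open scoped ENNReal

/-- (1) Let `E` be a Banach space (real or complex) with a basis. If `E` contains uniformly
complemented copies of the spaces `ℓ_p^n` for some `p ∈ [1, ∞)` with `p ≠ 2`, or uniformly
complemented copies of both the `ℓ_2^n`'s and the `ℓ_∞^n`'s, then `E` has property (NP): some basic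
sequence of `E` has no permutation that extends to a basis of `E`.
(2) In particular `ℓ_p` has (NP) for all `p ∈ [1, ∞)` with `p ≠ 2`. -/
theorem result {𝕜 : Type*} [RCLike 𝕜] :
    (∀ (E : Type u) [NormedAddCommGroup E] [NormedSpace 𝕜 E] [CompleteSpace E],
      (∃ e : ℕ → E, IsBasis 𝕜 e) →
      ((∃ (p : ℝ≥0∞) (_ : Fact (1 ≤ p)), p ≠ 2 ∧ p ≠ ∞ ∧ UnifCompl 𝕜 E p) ∨
        (UnifCompl 𝕜 E 2 ∧ UnifCompl 𝕜 E ∞)) →
      PropNP 𝕜 E) ∧
    (∀ (p : ℝ≥0∞) [Fact (1 ≤ p)], p ≠ 2 → p ≠ ∞ → PropNP 𝕜 (lp (fun _ : ℕ => 𝕜) p)) := by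
  refine ⟨?_, fun p _ h2 htop => propNP_ellp p h2 htop⟩
  intro E _ _ _ hE h
  rcases h with ⟨p, hp, h2, htop, hc⟩ | ⟨h2, hinf⟩
  · exact propNP_of_unifCompl hE p h2 htop hc
  · exact propNP_of_two_infty hE h2 hinf

end Pool.Agent.Results.MP_2a75aa_an.ComplementedLp
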