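import Pool.Agent.H42.LI.Final

/-!
# Basic sequences of `ℒ_∞`-spaces, and of `C(K)` for countable `K`, extend to bases
-/

set_option autoImplicit false

namespace Pool.Agent.Results.MP_2a75aa_an.CountableCompact

open Pool.Agent.H14.NP (IsBasis IsBasicSeq ExtendsToBasis PropNP)
open Pool.Agent.H42.NP (IsLInfty)
open scoped ZeroAtInfty

/-- (1) Let `E` be a separable `ℒ_∞`-space (real or complex) and `y` a basic sequence in `E`.
Suppose that there are vectors `w n` whose finite sums `∑ a_i w_i`, `|a_i| ≤ 1`, are bounded and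
whose distances from the span of `y` are bounded below by some `δ > 0`.  Then `y` extends to a
basis of `E`.
(2) Let `E` be isomorphic to `C₀(X)` for a countable locally compact Hausdorff space `X`
(for example `c_0`, or `C(K)` for a countable compact space `K`).  Then every basic sequence of `E`
extends to a basis of `E`; in particular `E` fails property (NP). -/
theorem result {𝕜 : Type*} [RCLike 𝕜] {E : Type*} [NormedAddCommGroup E] [NormedSpace 𝕜 E] :
    (CompleteSpace E → TopologicalSpace.SeparableSpace E → IsLInfty 𝕜 E →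
      ∀ y : ℕ → E, IsBasicSeq 𝕜 y →
        ∀ (w : ℕ → E) (C δ : ℝ), 0 < δ →
          (∀ (s : Finset ℕ) (a : ℕ → 𝕜), (∀ i, ‖a i‖ ≤ 1) → ‖∑ i ∈ s, a i • w i‖ ≤ C) →
          (∀ n, ∀ f ∈ Submodule.span 𝕜 (Set.range y), δ ≤ ‖w n - f‖) →
          ExtendsToBasis 𝕜 y) ∧
    (∀ (X : Type*) [TopologicalSpace X] [T2Space X] [LocallyCompactSpace X] [Countable X],
      Nonempty (E ≃L[𝕜] C₀(X, 𝕜)) →
        (∀ y : ℕ → E, IsBasicSeq 𝕜 y → ExtendsToBasis 𝕜 y) ∧ ¬ PropNP 𝕜 E) := by
  refine ⟨fun h1 h2 h3 y hy w C δ hδ hw hwy => ?_, fun X _ _ _ _ ⟨L⟩ => ?_⟩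
  · have := h1
    have := h2
    exact Pool.Agent.H42.LI.extends_of_wuc h3 hy w C δ hδ hw hwy
  · have h : ∀ y : ℕ → E, IsBasicSeq 𝕜 y → ExtendsToBasis 𝕜 y := fun y hy =>
      Pool.Agent.H42.LI.extends_of_equiv_cx L hy
    exact ⟨h, fun ⟨y, hy, hy'⟩ => hy' (Equiv.refl ℕ) (h _ (by simpa using hy))⟩

end Pool.Agent.Results.MP_2a75aa_an.CountableCompact
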