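import Pool.Agent.H42.NP.Final

/-!
# Spaces containing the `ℓ_1^n` uniformly
-/

set_option autoImplicit false

namespace Pool.Agent.Results.MP_2a75aa_an.NonBConvex

open Pool.Agent.H14.NP (IsBasis PropNP)
open Pool.Agent.H42.NP (ContainsEllOne IsLInfty)

/-- Let `E` be a Banach space (real or complex) with a basis. If `E` contains the spaces `ℓ_1^n`
uniformly (that is, `E` is not B-convex) and `E` is not an `ℒ_∞`-space, then `E` has property (NP):
some basic sequence of `E` has no permutation that extends to a basis of `E`. -/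
theorem result {𝕜 : Type*} [RCLike 𝕜] (E : Type*) [NormedAddCommGroup E] [NormedSpace 𝕜 E]
    [CompleteSpace E] (hE : ∃ e : ℕ → E, IsBasis 𝕜 e) (h1 : ContainsEllOne 𝕜 E)
    (h2 : ¬ IsLInfty 𝕜 E) : PropNP 𝕜 E :=
  Pool.Agent.H42.NP.propNP_of_ellOne hE h1 h2

end Pool.Agent.Results.MP_2a75aa_an.NonBConvex
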