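import Pool.Agent.H42.KC.PartA
import Pool.Agent.H42.KC.PartB

/-!
# K-convex spaces that are not near-Hilbert
-/

set_option autoImplicit false

namespace Pool.Agent.Results.MP_2a75aa_an.NonNearHilbert

open Pool.Agent.H14.NP (IsBasis PropNP UnifCompl)
open Pool.Agent.H42.KC (ContainsEll HasType)

/-- Let `E` be a Banach space (real or complex) with a basis such that
(a) `E` contains uniformly complemented copies of the spaces `ℓ_2^n` and, for some `1 ≤ p < 2`, the
spaces `ℓ_p^n` uniformly (no complementation), or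
(b) for some `2 < q < ∞`, `E` contains the spaces `ℓ_q^n` uniformly (no complementation) and the dual
of `E` has type `s` for every `1 ≤ s < q / (q - 1)`.
Then `E` has property (NP): some basic sequence of `E` has no permutation that extends to a basis
of `E`. -/
theorem result {𝕜 : Type*} [RCLike 𝕜] (E : Type*) [NormedAddCommGroup E] [NormedSpace 𝕜 E]
    [CompleteSpace E] (hE : ∃ e : ℕ → E, IsBasis 𝕜 e)
    (h : (UnifCompl 𝕜 E 2 ∧ ∃ p : ℝ, 1 ≤ p ∧ p < 2 ∧ ContainsEll 𝕜 E (ENNReal.ofReal p)) ∨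
      (∃ q : ℝ, 2 < q ∧ ContainsEll 𝕜 E (ENNReal.ofReal q) ∧
        ∀ s : ℝ, 1 ≤ s → s < q / (q - 1) → HasType (E →L[𝕜] 𝕜) s)) :
    PropNP 𝕜 E := by
  rcases h with ⟨h2, p, hp1, hp2, hp⟩ | ⟨q, hq2, hq, ht⟩
  · have : Fact (1 ≤ ENNReal.ofReal p) := ⟨ENNReal.one_le_ofReal.2 hp1⟩
    refine Pool.Agent.H42.KC.propNP_small hE (ENNReal.ofReal p) ?_ h2 hp
    rw [← ENNReal.ofReal_ofNat]
    exact (ENNReal.ofReal_lt_ofReal_iff (by norm_num)).2 hp2
  · have : Fact (1 ≤ ENNReal.ofReal q) := ⟨ENNReal.one_le_ofReal.2 (by linarith)⟩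
    refine Pool.Agent.H42.KC.propNP_large hE (ENNReal.ofReal q) ?_ ENNReal.ofReal_ne_top hq ?_
    · rw [← ENNReal.ofReal_ofNat]
      exact (ENNReal.ofReal_lt_ofReal_iff (by linarith)).2 hq2
    · rw [ENNReal.toReal_ofReal (by linarith)]
      exact ht

end Pool.Agent.Results.MP_2a75aa_an.NonNearHilbert
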